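import Pool.Agent.Run7.h286.PL.StmA

/-!
# Project PRL, piece NUM: the sum of the weights
-/

set_option autoImplicit false

namespace Run7.h160.PL
open Run7.h286.PL Filter Topology

theorem wt_zero : wt 0 = 1 := by simp [wt]

theorem wt_succ (d : ℕ) : wt (d + 1) = wt d * (2 / (2 ^ (d + 1) - 1)) := by
  rw [wt, wt, Finset.prod_range_succ]

theorem two_pow_sub_pos (d : ℕ) : (0 : ℝ) < 2 ^ (d + 1) - 1 := by
  have : (1 : ℝ) < 2 ^ (d + 1) := one_lt_pow₀ (by norm_num) (Nat.succ_ne_zero d)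
  linarith

theorem wt_pos (d : ℕ) : 0 < wt d := by
  rw [wt]
  exact Finset.prod_pos fun i _ => div_pos two_pos (two_pow_sub_pos i)

/-- Detailed balance. -/
theorem wt_bal (d : ℕ) : wt (d + 1) * (1 - (1 / 2) ^ (d + 1)) = wt d * (1 / 2) ^ d := by
  rw [wt_succ]
  have h1 := two_pow_sub_pos d
  have h2 : (0 : ℝ) < 2 ^ d := by positivity
  rw [one_div, inv_pow, inv_pow]
  field_simp
  ring

theorem summable_wt2 : Summable fun d => wt d * 2 ^ d := by
  refine summable_of_ratio_norm_eventually_le (r := 1 / 2) (by norm_num) ?_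
  filter_upwards [eventually_ge_atTop 3] with d hd
  have h1 := wt_pos d
  have h2 := wt_pos (d + 1)
  rw [Real.norm_of_nonneg (by positivity), Real.norm_of_nonneg (by positivity), wt_succ]
  have h3 : (2 : ℝ) ^ 4 ≤ 2 ^ (d + 1) := pow_le_pow_right₀ (by norm_num) (by omega)
  have h4 : (2 : ℝ) / (2 ^ (d + 1) - 1) ≤ 1 / 4 := by
    rw [div_le_div_iff₀ (two_pow_sub_pos d) (by norm_num)]
    norm_num at h3
    linarith
  have h5 : (0 : ℝ) < 2 ^ d := by positivity
  calc wt d * (2 / (2 ^ (d + 1) - 1)) * 2 ^ (d + 1) ≤ wt d * (1 / 4) * 2 ^ (d + 1) := by gcongr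
    _ = 1 / 2 * (wt d * 2 ^ d) := by ring

theorem summable_wt : Summable wt := by
  refine Summable.of_nonneg_of_le (fun d => (wt_pos d).le) (fun d => ?_) summable_wt2
  exact le_mul_of_one_le_right (wt_pos d).le (one_le_pow₀ (by norm_num))

/-- The generating function. -/
noncomputable def W (x : ℝ) : ℝ := ∑' d, wt d * x ^ d

theorem summable_W {x : ℝ} (h0 : 0 ≤ x) (h1 : x ≤ 1) : Summable fun d => wt d * x ^ d :=
  Summable.of_nonneg_of_le (fun d => mul_nonneg (wt_pos d).le (pow_nonneg h0 _))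
    (fun d => mul_le_of_le_one_right (wt_pos d).le (pow_le_one₀ h0 h1)) summable_wt

theorem W_one : W 1 = ∑' d, wt d := by simp [W]

theorem W_half {x : ℝ} (h0 : 0 ≤ x) (h1 : x ≤ 1) : W x = (1 + x) * W (x / 2) := by
  have hs1 := summable_W h0 h1
  have hs2 := summable_W (x := x / 2) (by linarith) (by linarith)
  have h2 : W x - W (x / 2) = x * W (x / 2) := by
    rw [W, W, ← hs1.tsum_sub hs2, (hs1.sub hs2).tsum_eq_zero_add, ← tsum_mul_left]
    simp only [pow_zero, sub_self, zero_add]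
    refine tsum_congr fun d => ?_
    have h3 := wt_bal d
    have h4 : wt (d + 1) * x ^ (d + 1) - wt (d + 1) * (x / 2) ^ (d + 1) =
        wt (d + 1) * (1 - (1 / 2) ^ (d + 1)) * x ^ (d + 1) := by
      rw [div_pow, one_div, inv_pow]
      field_simp
    rw [h4, h3, div_pow, div_pow, one_pow, pow_succ]
    field_simp
  linarith

theorem W_iter (n : ℕ) : W 1 = (∏ j ∈ Finset.range n, (1 + (1 / 2 : ℝ) ^ j)) * W ((1 / 2) ^ n) := by
  induction n with
  | zero => simp
  | succ n ih =>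
    have h1 : (0 : ℝ) ≤ (1 / 2) ^ n := by positivity
    have h2 : (1 / 2 : ℝ) ^ n ≤ 1 := pow_le_one₀ (by norm_num) (by norm_num)
    rw [Finset.prod_range_succ, ih, W_half h1 h2, pow_succ, mul_one_div, mul_assoc]

theorem W_bd {x : ℝ} (h0 : 0 ≤ x) (h1 : x ≤ 1) : 1 ≤ W x ∧ W x ≤ 1 + x * W 1 := by
  have hs1 := summable_W h0 h1
  have h2 : W x = 1 + ∑' d, wt (d + 1) * x ^ (d + 1) := by
    rw [W, hs1.tsum_eq_zero_add]
    simp [wt_zero]
  have hs2 : Summable fun d => wt (d + 1) * x ^ (d + 1) := (summable_nat_add_iff 1).2 hs1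
  have hs3 : Summable fun d => wt (d + 1) := (summable_nat_add_iff 1).2 summable_wt
  constructor
  · rw [h2]
    have : 0 ≤ ∑' d, wt (d + 1) * x ^ (d + 1) :=
      tsum_nonneg fun d => mul_nonneg (wt_pos _).le (pow_nonneg h0 _)
    linarith
  · rw [h2, W_one, summable_wt.tsum_eq_zero_add]
    have h3 : ∑' d, wt (d + 1) * x ^ (d + 1) ≤ ∑' d, x * wt (d + 1) := by
      refine hs2.tsum_le_tsum (fun d => ?_) (hs3.mul_left x)
      rw [pow_succ, mul_comm x]
      have h4 : x ^ d * x ≤ 1 * x := mul_le_mul_of_nonneg_right (pow_le_one₀ h0 h1) h0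
      have h5 := mul_le_mul_of_nonneg_left h4 (wt_pos (d + 1)).le
      linarith
    rw [tsum_mul_left] at h3
    have h6 := mul_nonneg h0 (wt_pos 0).le
    rw [mul_add]
    linarith

theorem tendsto_prod : Tendsto (fun n : ℕ => ∏ j ∈ Finset.range n, (1 + (1 / 2 : ℝ) ^ j)) atTop
    (𝓝 (∑' d, wt d)) := by
  have hx : Tendsto (fun n : ℕ => (1 / 2 : ℝ) ^ n) atTop (𝓝 0) :=
    tendsto_pow_atTop_nhds_zero_of_lt_one (by norm_num) (by norm_num)
  have h0 : ∀ n : ℕ, (0 : ℝ) ≤ (1 / 2) ^ n := fun n => by positivity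
  have h1 : ∀ n : ℕ, (1 / 2 : ℝ) ^ n ≤ 1 := fun n => pow_le_one₀ (by norm_num) (by norm_num)
  have hW : Tendsto (fun n : ℕ => W ((1 / 2 : ℝ) ^ n)) atTop (𝓝 1) := by
    refine tendsto_of_tendsto_of_tendsto_of_le_of_le tendsto_const_nhds ?_
      (fun n => (W_bd (h0 n) (h1 n)).1) (fun n => (W_bd (h0 n) (h1 n)).2)
    simpa using (hx.mul_const (W 1)).const_add 1
  have h2 : (fun n : ℕ => ∏ j ∈ Finset.range n, (1 + (1 / 2 : ℝ) ^ j)) =
      fun n => W 1 / W ((1 / 2) ^ n) := by
    funext n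
    have h3 := (W_bd (h0 n) (h1 n)).1
    rw [eq_div_iff (by linarith), ← W_iter]
  rw [h2, ← W_one]
  have := (tendsto_const_nhds (x := W 1)).div hW one_ne_zero
  rw [div_one] at this
  exact this

theorem num : P_NUM := by
  refine ⟨wt_pos, summable_wt, ?_, ?_, summable_wt2⟩
  · have hm : Multipliable fun j : ℕ => 1 + (1 / 2 : ℝ) ^ j :=
      Real.multipliable_one_add_of_summable (summable_geometric_of_lt_one (by norm_num) (by norm_num))
    exact (hm.hasProd_iff_tendsto_nat).2 tendsto_prod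
  · have h1 := W_iter 24
    have h2 := W_bd (x := (1 / 2 : ℝ) ^ 24) (by positivity) (pow_le_one₀ (by norm_num) (by norm_num))
    rw [← W_one]
    obtain ⟨P, hP⟩ : ∃ P, P = ∏ j ∈ Finset.range 24, (1 + (1 / 2 : ℝ) ^ j) := ⟨_, rfl⟩
    rw [← hP] at h1
    have h3 : 4.768461 < P := by
      rw [hP]
      simp only [Finset.prod_range_succ, Finset.prod_range_zero]
      norm_num
    have h4 : P < 4.768463 := by
      rw [hP]
      simp only [Finset.prod_range_succ, Finset.prod_range_zero]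
      norm_num
    have h5 : 0 < W 1 := by
      rw [W_one]
      exact summable_wt.tsum_pos (fun d => (wt_pos d).le) 0 (wt_pos 0)
    have h6 : P ≤ W 1 := by
      rw [h1]
      exact le_mul_of_one_le_right (by linarith) h2.1
    have h7 : W 1 ≤ P * (1 + (1 / 2) ^ 24 * W 1) := by
      calc W 1 = P * W ((1 / 2) ^ 24) := h1
        _ ≤ _ := mul_le_mul_of_nonneg_left h2.2 (by linarith)
    have h8 : P * ((1 / 2) ^ 24 * W 1) ≤ 4.768463 * ((1 / 2) ^ 24 * W 1) :=
      mul_le_mul_of_nonneg_right h4.le (by positivity)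
    norm_num at h7 h8
    rw [abs_lt]
    constructor
    · linarith
    · have h9 : W 1 * (1 - 4.768463 / 16777216) ≤ P := by
        have : P * (1 + 1 / 16777216 * W 1) = P + P * (1 / 16777216 * W 1) := by ring
        linarith
      have h10 : W 1 * (1 - 4.768463 / 16777216) < 4.768463 := lt_of_le_of_lt h9 h4
      norm_num at h10 ⊢
      linarith

end Run7.h160.PL
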