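import Pool.Agent.Run7.h160.PL.NUM

/-!
# Project PRL, piece MC: the lazy Markov chain converges to the law `Lw`
-/

set_option autoImplicit false

namespace Run7.h160.PL
open Run7.h286.PL Filter Topology

/-! ### Stationarity -/

theorem summable_wt_mul {f : ℕ → ℝ} {B : ℝ} (hf : ∀ d, |f d| ≤ B) : Summable fun d => wt d * f d := by
  refine Summable.of_norm_bounded (summable_wt.mul_right B) fun d => ?_
  rw [norm_mul, Real.norm_of_nonneg (wt_pos d).le]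
  exact mul_le_mul_of_nonneg_left (hf d) (wt_pos d).le

theorem half_pow_le (d : ℕ) : (1 / 2 : ℝ) ^ d ≤ 1 := pow_le_one₀ (by norm_num) (by norm_num)

theorem Mk_bd {f : ℕ → ℝ} {B : ℝ} (hf : ∀ d, |f d| ≤ B) (d : ℕ) : |Mk f d| ≤ B := by
  have h1 : (0 : ℝ) ≤ (1 / 2) ^ d := by positivity
  have h2 := half_pow_le d
  have h3 := abs_le.1 (hf (d + 1))
  have h4 := abs_le.1 (hf (d - 1))
  rw [Mk, abs_le]
  constructor <;> nlinarith

theorem Mz_bd {ρ : ℝ} (h0 : 0 ≤ ρ) (h1 : ρ ≤ 1) {f : ℕ → ℝ} {B : ℝ} (hf : ∀ d, |f d| ≤ B) (d : ℕ) :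
    |Mz ρ f d| ≤ B := by
  have h3 := abs_le.1 (hf d)
  have h4 := abs_le.1 (Mk_bd hf d)
  rw [Mz, abs_le]
  constructor <;> nlinarith

theorem iter_bd {ρ : ℝ} (h0 : 0 ≤ ρ) (h1 : ρ ≤ 1) {f : ℕ → ℝ} {B : ℝ} (hf : ∀ d, |f d| ≤ B) (R : ℕ) :
    ∀ d, |(Mz ρ)^[R] f d| ≤ B := by
  induction R with
  | zero => exact hf
  | succ R ih =>
    intro d
    rw [Function.iterate_succ_apply']
    exact Mz_bd h0 h1 ih d

theorem stat_Mk {f : ℕ → ℝ} {B : ℝ} (hf : ∀ d, |f d| ≤ B) :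
    ∑' d, wt d * Mk f d = ∑' d, wt d * f d := by
  have hB : 0 ≤ B := (abs_nonneg _).trans (hf 0)
  have hs := summable_wt_mul hf
  -- the two parts
  have hb1 : ∀ d, |(1 / 2 : ℝ) ^ d * f (d + 1)| ≤ B := fun d => by
    rw [abs_mul, abs_of_nonneg (by positivity)]
    exact (mul_le_of_le_one_left (abs_nonneg _) (half_pow_le d)).trans (hf _)
  have hb2 : ∀ d, |(1 - (1 / 2 : ℝ) ^ d) * f (d - 1)| ≤ B := fun d => by
    have h1 : (0 : ℝ) ≤ (1 / 2) ^ d := by positivity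
    rw [abs_mul, abs_of_nonneg (by linarith [half_pow_le d])]
    exact (mul_le_of_le_one_left (abs_nonneg _) (by linarith)).trans (hf _)
  have hb3 : ∀ d, |(1 / 2 : ℝ) ^ d * f d| ≤ B := fun d => by
    rw [abs_mul, abs_of_nonneg (by positivity)]
    exact (mul_le_of_le_one_left (abs_nonneg _) (half_pow_le d)).trans (hf _)
  have hb4 : ∀ d, |(1 - (1 / 2 : ℝ) ^ d) * f d| ≤ B := fun d => by
    have h1 : (0 : ℝ) ≤ (1 / 2) ^ d := by positivity
    rw [abs_mul, abs_of_nonneg (by linarith [half_pow_le d])]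
    exact (mul_le_of_le_one_left (abs_nonneg _) (by linarith)).trans (hf _)
  have hs1 := summable_wt_mul hb1
  have hs2 := summable_wt_mul hb2
  have hs3 := summable_wt_mul hb3
  have hs4 := summable_wt_mul hb4
  have e1 : ∑' d, wt d * Mk f d = ∑' d, wt d * ((1 / 2 : ℝ) ^ d * f (d + 1)) +
      ∑' d, wt d * ((1 - (1 / 2 : ℝ) ^ d) * f (d - 1)) := by
    rw [← hs1.tsum_add hs2]
    refine tsum_congr fun d => ?_
    rw [Mk]
    ring
  have e2 : ∑' d, wt d * f d = ∑' d, wt d * ((1 - (1 / 2 : ℝ) ^ d) * f d) +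
      ∑' d, wt d * ((1 / 2 : ℝ) ^ d * f d) := by
    rw [← hs4.tsum_add hs3]
    refine tsum_congr fun d => ?_
    ring
  rw [e1, e2]
  congr 1
  · rw [hs4.tsum_eq_zero_add]
    simp only [pow_zero, sub_self, zero_mul, mul_zero, zero_add]
    refine tsum_congr fun d => ?_
    have := wt_bal d
    rw [← mul_assoc, ← mul_assoc, this]
  · rw [hs2.tsum_eq_zero_add]
    simp only [pow_zero, sub_self, zero_mul, mul_zero, zero_add]
    refine tsum_congr fun d => ?_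
    have := wt_bal d
    rw [← mul_assoc, this, ← mul_assoc]
    rfl

theorem stat_Mz {ρ : ℝ} {f : ℕ → ℝ} {B : ℝ} (hf : ∀ d, |f d| ≤ B) :
    ∑' d, wt d * Mz ρ f d = ∑' d, wt d * f d := by
  have hs := summable_wt_mul hf
  have hs1 := summable_wt_mul (Mk_bd hf)
  have e1 : ∑' d, wt d * Mz ρ f d = (1 - ρ) * ∑' d, wt d * f d + ρ * ∑' d, wt d * Mk f d := by
    rw [← tsum_mul_left, ← tsum_mul_left, ← (hs.mul_left _).tsum_add (hs1.mul_left _)]
    refine tsum_congr fun d => ?_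
    rw [Mz]
    ring
  rw [e1, stat_Mk hf]
  ring

theorem stat_iter {ρ : ℝ} (h0 : 0 ≤ ρ) (h1 : ρ ≤ 1) {f : ℕ → ℝ} {B : ℝ} (hf : ∀ d, |f d| ≤ B)
    (R : ℕ) : ∑' d, wt d * (Mz ρ)^[R] f d = ∑' d, wt d * f d := by
  induction R with
  | zero => rfl
  | succ R ih =>
    rw [← ih]
    simp only [Function.iterate_succ_apply']
    exact stat_Mz (iter_bd h0 h1 hf R)

/-! ### Contraction -/

/-- The differences over two steps are at most `A 2 ^ y`. -/
def Df (A : ℝ) (f : ℕ → ℝ) : Prop := ∀ y, |f (y + 2) - f y| ≤ A * 2 ^ y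

theorem Df_Mk {A : ℝ} {f : ℕ → ℝ} (hf : Df A f) : Df (A / 2) (Mk f) := by
  intro y
  rcases y with _ | y
  · have h1 : Mk f (0 + 2) - Mk f 0 = 1 / 4 * (f (1 + 2) - f 1) := by
      simp only [Mk]
      norm_num
      ring
    rw [h1, abs_mul, abs_of_nonneg (by norm_num : (0 : ℝ) ≤ 1 / 4)]
    have := hf 1
    norm_num at this ⊢
    linarith
  · have h1 : Mk f (y + 1 + 2) - Mk f (y + 1) = (1 / 2) ^ (y + 3) * (f (y + 2 + 2) - f (y + 2)) +
        (1 - (1 / 2) ^ (y + 1)) * (f (y + 2) - f y) := by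
      simp only [Mk, Nat.add_sub_cancel, show y + 1 + 2 = y + 3 by omega,
        show y + 3 + 1 = y + 4 by omega, show y + 1 + 1 = y + 2 by omega,
        show y + 3 - 1 = y + 2 by omega]
      ring
    have h2 : (0 : ℝ) ≤ (1 / 2) ^ (y + 1) := by positivity
    have h3 := half_pow_le (y + 1)
    rw [h1]
    calc |(1 / 2 : ℝ) ^ (y + 3) * (f (y + 2 + 2) - f (y + 2)) + (1 - (1 / 2) ^ (y + 1)) * (f (y + 2) - f y)|
        ≤ |(1 / 2 : ℝ) ^ (y + 3) * (f (y + 2 + 2) - f (y + 2))| +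
          |(1 - (1 / 2) ^ (y + 1)) * (f (y + 2) - f y)| := abs_add_le _ _
      _ = (1 / 2 : ℝ) ^ (y + 3) * |f (y + 2 + 2) - f (y + 2)| +
          (1 - (1 / 2) ^ (y + 1)) * |f (y + 2) - f y| := by
          rw [abs_mul, abs_mul, abs_of_nonneg (by positivity : (0 : ℝ) ≤ (1 / 2) ^ (y + 3)),
            abs_of_nonneg (by linarith : (0 : ℝ) ≤ 1 - (1 / 2) ^ (y + 1))]
      _ ≤ (1 / 2 : ℝ) ^ (y + 3) * (A * 2 ^ (y + 2)) + (1 - (1 / 2) ^ (y + 1)) * (A * 2 ^ y) := by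
          gcongr
          · exact hf _
          · exact hf _
      _ = A / 2 * 2 ^ (y + 1) := by
          have h4 : (1 / 2 : ℝ) ^ y * 2 ^ y = 1 := by rw [← mul_pow]; norm_num
          rw [pow_add, pow_add, pow_add, pow_add]
          linear_combination (A / 8 * 4 - A / 2) * h4

theorem Df_Mz {ρ A : ℝ} (h0 : 0 ≤ ρ) (h1 : ρ ≤ 1) {f : ℕ → ℝ} (hf : Df A f) :
    Df ((1 - ρ / 2) * A) (Mz ρ f) := by
  intro y
  have h2 : Mz ρ f (y + 2) - Mz ρ f y = (1 - ρ) * (f (y + 2) - f y) + ρ * (Mk f (y + 2) - Mk f y) := by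
    simp only [Mz]
    ring
  have h3 := hf y
  have h4 := Df_Mk hf y
  rw [h2]
  calc |(1 - ρ) * (f (y + 2) - f y) + ρ * (Mk f (y + 2) - Mk f y)|
      ≤ |(1 - ρ) * (f (y + 2) - f y)| + |ρ * (Mk f (y + 2) - Mk f y)| := abs_add_le _ _
    _ = (1 - ρ) * |f (y + 2) - f y| + ρ * |Mk f (y + 2) - Mk f y| := by
        rw [abs_mul, abs_mul, abs_of_nonneg (by linarith : (0 : ℝ) ≤ 1 - ρ), abs_of_nonneg h0]
    _ ≤ (1 - ρ) * (A * 2 ^ y) + ρ * (A / 2 * 2 ^ y) := by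
        gcongr
    _ = (1 - ρ / 2) * A * 2 ^ y := by ring

theorem Df_iter {ρ : ℝ} (h0 : 0 ≤ ρ) (h1 : ρ ≤ 1) {f : ℕ → ℝ} (hf : ∀ d, |f d| ≤ 1) (R : ℕ) :
    Df (2 * (1 - ρ / 2) ^ R) ((Mz ρ)^[R] f) := by
  induction R with
  | zero =>
    intro y
    have h2 := abs_le.1 (hf y)
    have h3 := abs_le.1 (hf (y + 2))
    have h4 : (1 : ℝ) ≤ 2 ^ y := one_le_pow₀ (by norm_num)
    simp only [Function.iterate_zero, id_eq, pow_zero, mul_one]
    rw [abs_le]
    constructor <;> linarith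
  | succ R ih =>
    rw [Function.iterate_succ_apply', pow_succ]
    have := Df_Mz h0 h1 ih
    rwa [show (1 - ρ / 2) * (2 * (1 - ρ / 2) ^ R) = 2 * ((1 - ρ / 2) ^ R * (1 - ρ / 2)) by ring] at this

theorem Df_mod {A : ℝ} {f : ℕ → ℝ} (hf : Df A f) (hA : 0 ≤ A) (x : ℕ) :
    |f x - f (x % 2)| ≤ A * 2 ^ x := by
  induction x using Nat.strong_induction_on with
  | _ x ih =>
    by_cases hx : x < 2
    · rw [Nat.mod_eq_of_lt hx, sub_self, abs_zero]
      positivity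
    · obtain ⟨y, rfl⟩ : ∃ y, x = y + 2 := ⟨x - 2, by omega⟩
      have h1 := ih y (by omega)
      have h2 := hf y
      have h3 : (y + 2) % 2 = y % 2 := by omega
      rw [h3]
      have h4 := abs_le.1 h1
      have h5 := abs_le.1 h2
      have h6 : 0 ≤ A * 2 ^ y := by positivity
      rw [pow_add, abs_le]
      constructor <;> nlinarith

theorem mc : P_MC := by
  intro ρ h0 h1
  obtain ⟨κ, hκ1, hκ2⟩ : ∃ κ, max (1 - ρ / 2) |1 - 2 * ρ| < κ ∧ κ < 1 := by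
    refine exists_between (max_lt (by linarith) ?_)
    rw [abs_lt]
    constructor <;> linarith
  have hκa : 1 - ρ / 2 < κ := lt_of_le_of_lt (le_max_left _ _) hκ1
  have hκb : |1 - 2 * ρ| < κ := lt_of_le_of_lt (le_max_right _ _) hκ1
  have hκ0 : 0 < κ := lt_of_le_of_lt (abs_nonneg _) hκb
  obtain ⟨E, hE⟩ : ∃ E, E = 2 + 1 / (κ - |1 - 2 * ρ|) := ⟨_, rfl⟩
  have hE2 : 2 ≤ E := by
    rw [hE]
    have : 0 < 1 / (κ - |1 - 2 * ρ|) := one_div_pos.2 (by linarith)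
    linarith
  have hE1 : 1 ≤ E * (κ - |1 - 2 * ρ|) := by
    have h2 : 0 < κ - |1 - 2 * ρ| := by linarith
    rw [hE, add_mul, one_div, inv_mul_cancel₀ h2.ne']
    linarith
  obtain ⟨C, hC⟩ : ∃ C, C = 2 + (E / (1 - κ) + E) := ⟨_, rfl⟩
  have hEκ : 0 < E / (1 - κ) := div_pos (by linarith) (by linarith)
  have hC0 : 0 < C := by rw [hC]; linarith
  refine ⟨C, κ, hC0, hκ0, hκ2, fun φ hφ => ?_⟩
  have hbd := iter_bd h0.le h1.le hφ
  have hD := Df_iter h0.le h1.le hφ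
  have hκR : ∀ R : ℕ, (1 - ρ / 2) ^ R ≤ κ ^ R := fun R =>
    pow_le_pow_left₀ (by linarith) hκa.le R
  -- the values at `0` and `1`
  obtain ⟨u, hu⟩ : ∃ u : ℕ → ℝ, ∀ R, u R = (Mz ρ)^[R] φ 0 := ⟨_, fun _ => rfl⟩
  obtain ⟨v, hv⟩ : ∃ v : ℕ → ℝ, ∀ R, v R = (Mz ρ)^[R] φ 1 := ⟨_, fun _ => rfl⟩
  have hu1 : ∀ R, u (R + 1) - u R = - ρ * (u R - v R) := by
    intro R
    rw [hu, hu, hv, Function.iterate_succ_apply']
    simp only [Mz, Mk, pow_zero, zero_add]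
    ring
  have huv : ∀ R, u (R + 1) - v (R + 1) = (1 - 2 * ρ) * (u R - v R) -
      ρ / 2 * ((Mz ρ)^[R] φ (0 + 2) - (Mz ρ)^[R] φ 0) := by
    intro R
    rw [hu, hu, hv, hv, Function.iterate_succ_apply']
    simp only [Mz, Mk, pow_zero, zero_add, pow_one, Nat.sub_self, Nat.reduceAdd]
    ring
  have he : ∀ R, |u R - v R| ≤ E * κ ^ R := by
    intro R
    induction R with
    | zero =>
      have h2 := abs_le.1 (hbd 0 0)
      have h3 := abs_le.1 (hbd 0 1)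
      rw [hu, hv, pow_zero, mul_one, abs_le]
      constructor <;> linarith
    | succ R ih =>
      rw [huv]
      have h2 := hD R 0
      rw [pow_zero, mul_one] at h2
      have h3 := hκR R
      have h4 : 0 < κ ^ R := pow_pos hκ0 R
      calc |(1 - 2 * ρ) * (u R - v R) - ρ / 2 * ((Mz ρ)^[R] φ (0 + 2) - (Mz ρ)^[R] φ 0)|
          ≤ |(1 - 2 * ρ) * (u R - v R)| + |ρ / 2 * ((Mz ρ)^[R] φ (0 + 2) - (Mz ρ)^[R] φ 0)| :=
            abs_sub _ _
        _ = |1 - 2 * ρ| * |u R - v R| + ρ / 2 * |(Mz ρ)^[R] φ (0 + 2) - (Mz ρ)^[R] φ 0| := by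
            rw [abs_mul, abs_mul, abs_of_pos (by linarith : 0 < ρ / 2)]
        _ ≤ |1 - 2 * ρ| * (E * κ ^ R) + ρ / 2 * (2 * κ ^ R) := by
            gcongr
            linarith
        _ ≤ |1 - 2 * ρ| * (E * κ ^ R) + 1 * κ ^ R := by
            have : ρ / 2 * (2 * κ ^ R) = ρ * κ ^ R := by ring
            rw [this]
            gcongr
        _ ≤ |1 - 2 * ρ| * (E * κ ^ R) + E * (κ - |1 - 2 * ρ|) * κ ^ R := by gcongr
        _ = E * κ ^ (R + 1) := by ring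
  -- the limit
  have hdist : ∀ R, dist (u R) (u (R + 1)) ≤ E * κ ^ R := by
    intro R
    rw [dist_comm, Real.dist_eq, hu1, abs_mul, abs_neg, abs_of_pos h0]
    exact (mul_le_of_le_one_left (abs_nonneg _) h1.le).trans (he R)
  obtain ⟨l, hl⟩ := cauchySeq_tendsto_of_complete (cauchySeq_of_le_geometric κ E hκ2 hdist)
  have hul : ∀ R, |u R - l| ≤ E / (1 - κ) * κ ^ R := by
    intro R
    have := dist_le_of_le_geometric_of_tendsto κ E hκ2 hdist hl R
    rw [Real.dist_eq] at this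
    calc _ ≤ _ := this
      _ = _ := by ring
  have hconv : ∀ R x : ℕ, |(Mz ρ)^[R] φ x - l| ≤ C * κ ^ R * 2 ^ x := by
    intro R x
    have h2 : |(Mz ρ)^[R] φ x - (Mz ρ)^[R] φ (x % 2)| ≤ 2 * κ ^ R * 2 ^ x := by
      refine (Df_mod (hD R) (mul_nonneg zero_le_two (pow_nonneg (by linarith) _)) x).trans ?_
      have := hκR R
      gcongr
    have h3 : |(Mz ρ)^[R] φ (x % 2) - l| ≤ (E / (1 - κ) + E) * κ ^ R := by
      have h4 := hul R
      have h5 := he R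
      have h6 : 0 < E * κ ^ R := mul_pos (by linarith) (pow_pos hκ0 R)
      rcases Nat.mod_two_eq_zero_or_one x with h | h
      · rw [h, ← hu, add_mul]
        linarith
      · rw [h, ← hv, add_mul]
        have h7 := abs_le.1 h4
        have h8 := abs_le.1 h5
        rw [abs_le]
        constructor <;> linarith
    have h4 : (1 : ℝ) ≤ 2 ^ x := one_le_pow₀ (by norm_num)
    have h5 : (E / (1 - κ) + E) * κ ^ R ≤ (E / (1 - κ) + E) * κ ^ R * 2 ^ x :=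
      le_mul_of_one_le_right (mul_nonneg (by linarith) (pow_pos hκ0 R).le) h4
    calc |(Mz ρ)^[R] φ x - l| ≤ |(Mz ρ)^[R] φ x - (Mz ρ)^[R] φ (x % 2)| + |(Mz ρ)^[R] φ (x % 2) - l| :=
          abs_sub_le _ _ _
      _ ≤ 2 * κ ^ R * 2 ^ x + (E / (1 - κ) + E) * κ ^ R * 2 ^ x := add_le_add h2 (h3.trans h5)
      _ = C * κ ^ R * 2 ^ x := by rw [hC]; ring
  -- the limit is the expectation
  have hlL : l = Lw φ := by
    have hW : 0 < ∑' d, wt d := summable_wt.tsum_pos (fun d => (wt_pos d).le) 0 (wt_pos 0)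
    have h2 : ∀ R : ℕ, |∑' d, wt d * φ d - l * ∑' d, wt d| ≤ C * (∑' d, wt d * 2 ^ d) * κ ^ R := by
      intro R
      rw [← stat_iter h0.le h1.le hφ R, ← tsum_mul_left,
        ← (summable_wt_mul (hbd R)).tsum_sub (summable_wt.mul_left l)]
      have h3 : Summable fun d => C * κ ^ R * (wt d * 2 ^ d) := summable_wt2.mul_left _
      have h4 : ∀ d, ‖wt d * (Mz ρ)^[R] φ d - l * wt d‖ ≤ C * κ ^ R * (wt d * 2 ^ d) := by
        intro d
        rw [show wt d * (Mz ρ)^[R] φ d - l * wt d = wt d * ((Mz ρ)^[R] φ d - l) by ring, norm_mul,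
          Real.norm_of_nonneg (wt_pos d).le]
        calc wt d * ‖(Mz ρ)^[R] φ d - l‖ ≤ wt d * (C * κ ^ R * 2 ^ d) :=
              mul_le_mul_of_nonneg_left (hconv R d) (wt_pos d).le
          _ = _ := by ring
      calc |∑' d, (wt d * (Mz ρ)^[R] φ d - l * wt d)| ≤ ∑' d, C * κ ^ R * (wt d * 2 ^ d) :=
            tsum_of_norm_bounded h3.hasSum h4
        _ = _ := by rw [tsum_mul_left]; ring
    have h3 : Tendsto (fun R : ℕ => C * (∑' d, wt d * 2 ^ d) * κ ^ R) atTop (𝓝 0) := by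
      simpa using (tendsto_pow_atTop_nhds_zero_of_lt_one hκ0.le hκ2).const_mul
        (C * (∑' d, wt d * 2 ^ d))
    have h4 : |∑' d, wt d * φ d - l * ∑' d, wt d| ≤ 0 := ge_of_tendsto' h3 h2
    have h5 : ∑' d, wt d * φ d - l * ∑' d, wt d = 0 := abs_eq_zero.1 (le_antisymm h4 (abs_nonneg _))
    rw [Lw, eq_div_iff hW.ne']
    linarith
  intro R x
  refine ⟨hbd R x, ?_⟩
  rw [← hlL]
  exact hconv R x

end Run7.h160.PL
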